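import Mathlib
import Pool.Agent.W163.CF.Defs
import Pool.Agent.FracEM.PM.Abs1

set_option autoImplicit false

namespace Pool.Agent.W365.CFS11

open Finset
open Pool.Agent.W163.CF
open Pool.Agent.FracEM.PMT

theorem mem_HC {n k : ℕ} (R : Fin n → Fin n → Prop) (d : Fin k → Bool) (e : Finset (Fin n)) :
    e ∈ HC R d ↔ Cyc R d e := by
  classical
  simp only [HC, Finset.mem_filter, Finset.mem_univ, true_and]

theorem HC_card {n k : ℕ} (R : Fin n → Fin n → Prop) (d : Fin k → Bool) :
    ∀ e ∈ HC R d, e.card = k := by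
  intro e he
  rw [mem_HC] at he
  obtain ⟨f, hf, _, rfl⟩ := he
  rw [Finset.card_image_of_injective _ hf, Finset.card_univ, Fintype.card_fin]

/-- a perfect matching of copies yields the ordering -/
theorem to_equiv {n k : ℕ} (hk : 0 < k) (hkn : k ∣ n) (R : Fin n → Fin n → Prop) (d : Fin k → Bool)
    (h : PMon (HC R d) univ) :
    ∃ e : Fin (n / k) × Fin k ≃ Fin n, ∀ j : Fin (n / k), PW R d (fun i => e (j, i)) := by
  obtain ⟨M, hM, hm, hU⟩ := h
  have hc : ∀ e ∈ M, e.card = k := fun e he => HC_card R d e (hM he)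
  have h1 : (M.biUnion id).card = ∑ e ∈ M, (id e).card :=
    Finset.card_biUnion (fun x hx y hy hne => hm x hx y hy hne)
  have h2 : ∑ e ∈ M, (id e).card = M.card * k := by
    rw [Finset.sum_congr rfl (fun e he => by rw [id, hc e he])]
    rw [Finset.sum_const, smul_eq_mul]
  rw [hU, Finset.card_univ, Fintype.card_fin, h2] at h1
  have hMc : M.card = n / k := Nat.eq_div_of_mul_eq_left hk.ne' h1.symm
  -- choice of the walks
  have hch : ∀ e : {e // e ∈ M}, ∃ f : Fin k → Fin n, Function.Injective f ∧ PW R d f ∧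
      univ.image f = e.1 := fun e => (mem_HC R d e.1).1 (hM e.2)
  choose f hfi hfw hfe using hch
  let m : Fin (n / k) ≃ {e // e ∈ M} := (Fintype.equivFinOfCardEq (by
    rw [Fintype.card_coe, hMc])).symm
  let g : Fin (n / k) × Fin k → Fin n := fun p => f (m p.1) p.2
  have hg : Function.Injective g := by
    rintro ⟨j, i⟩ ⟨j', i'⟩ hgg
    change f (m j) i = f (m j') i' at hgg
    have hj : j = j' := by
      by_contra hne
      have hne' : (m j).1 ≠ (m j').1 := fun h => hne (m.injective (Subtype.ext h))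
      have hd := hm _ (m j).2 _ (m j').2 hne'
      have ha : f (m j) i ∈ (m j).1 := by
        rw [← hfe (m j)]; exact Finset.mem_image_of_mem _ (Finset.mem_univ _)
      have hb : f (m j) i ∈ (m j').1 := by
        rw [hgg, ← hfe (m j')]; exact Finset.mem_image_of_mem _ (Finset.mem_univ _)
      exact Finset.disjoint_left.1 hd ha hb
    subst hj
    have := hfi _ hgg
    subst this
    rfl
  have hb : Function.Bijective g := by
    rw [Fintype.bijective_iff_injective_and_card]
    refine ⟨hg, ?_⟩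
    rw [Fintype.card_prod, Fintype.card_fin, Fintype.card_fin, Fintype.card_fin,
      Nat.div_mul_cancel hkn]
  refine ⟨Equiv.ofBijective g hb, fun j => ?_⟩
  exact hfw (m j)

/-- degrees in the induced digraph -/
theorem sub_deg {n : ℕ} (Z : Finset (Fin n)) (P : Fin n → Prop) :
    ({w | P w}.ncard : ℝ) ≤ ({w : {v : Fin n // v ∉ Z} | P w.1}.ncard : ℝ) + (Z.card : ℝ) := by
  classical
  have h : {w | P w} ⊆ (Subtype.val '' {w : {v : Fin n // v ∉ Z} | P w.1}) ∪ (Z : Set (Fin n)) := by
    intro w hw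
    by_cases hz : w ∈ Z
    · exact Or.inr hz
    · exact Or.inl ⟨⟨w, hz⟩, hw, rfl⟩
  have h1 := Set.ncard_le_ncard h (Set.toFinite _)
  have h2 := Set.ncard_union_le (Subtype.val '' {w : {v : Fin n // v ∉ Z} | P w.1}) (Z : Set (Fin n))
  rw [Set.ncard_image_of_injective _ Subtype.val_injective, Set.ncard_coe_finset] at h2
  exact_mod_cast h1.trans h2

theorem sub_Big {n : ℕ} (R : Fin n → Fin n → Prop) (η : ℝ) (hη : 0 < η) (hR : Big R η)
    (Z : Finset (Fin n)) (hZ : (Z.card : ℝ) ≤ η / 4 * n) :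
    Big (fun v w : {v : Fin n // v ∉ Z} => R v.1 w.1) (η / 2) := by
  have hc : (Fintype.card {v : Fin n // v ∉ Z} : ℝ) ≤ n := by
    have := Fintype.card_subtype_le (fun v : Fin n => v ∉ Z)
    rw [Fintype.card_fin] at this
    exact_mod_cast this
  have hn : (0 : ℝ) ≤ n := Nat.cast_nonneg n
  refine ⟨fun v => hR.irr v.1, fun v => ?_, fun v => ?_⟩
  · have h1 := hR.out v.1
    have h2 := sub_deg Z (fun w => R v.1 w)
    rw [Fintype.card_fin] at h1
    have h3 : (1 / 2 + η / 2) * (Fintype.card {v : Fin n // v ∉ Z} : ℝ) ≤ (1 / 2 + η / 2) * n :=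
      mul_le_mul_of_nonneg_left hc (by linarith)
    have h4 : 0 ≤ η * n := mul_nonneg hη.le hn
    linarith
  · have h1 := hR.inn v.1
    have h2 := sub_deg Z (fun w => R w v.1)
    rw [Fintype.card_fin] at h1
    have h3 : (1 / 2 + η / 2) * (Fintype.card {v : Fin n // v ∉ Z} : ℝ) ≤ (1 / 2 + η / 2) * n :=
      mul_le_mul_of_nonneg_left hc (by linarith)
    have h4 : 0 ≤ η * n := mul_nonneg hη.le hn
    linarith

/-- a matching in the induced digraph gives a matching in the big one -/
theorem lift_M {n k : ℕ} (R : Fin n → Fin n → Prop) (d : Fin k → Bool) (Z : Finset (Fin n))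
    (M : Finset (Finset {v : Fin n // v ∉ Z}))
    (hM : ∀ e ∈ M, Cyc (fun v w : {v : Fin n // v ∉ Z} => R v.1 w.1) d e)
    (hd : ∀ e ∈ M, ∀ e' ∈ M, e ≠ e' → Disjoint e e') :
    PMon (HC R d) ((M.biUnion id).map (Function.Embedding.subtype _)) := by
  classical
  refine ⟨M.image (fun e => e.map (Function.Embedding.subtype _)), ?_, ?_, ?_⟩
  · intro e' he'
    rw [Finset.mem_image] at he'
    obtain ⟨e, he, rfl⟩ := he'
    rw [mem_HC]
    obtain ⟨f, hf, hw, hfe⟩ := hM e he
    refine ⟨fun i => (f i).1, fun i j hij => hf (Subtype.ext hij), ?_, ?_⟩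
    · intro i j hij
      exact hw i j hij
    · rw [← hfe]
      ext x
      simp only [Finset.mem_image, Finset.mem_univ, true_and, Finset.mem_map,
        Function.Embedding.coe_subtype]
      constructor
      · rintro ⟨i, hi⟩
        exact ⟨f i, ⟨i, rfl⟩, hi⟩
      · rintro ⟨_, ⟨i, rfl⟩, hi⟩
        exact ⟨i, hi⟩
  · intro e he e' he' hne
    rw [Finset.mem_image] at he he'
    obtain ⟨e0, he0, rfl⟩ := he
    obtain ⟨e1, he1, rfl⟩ := he'
    rw [Finset.disjoint_map]
    exact hd e0 he0 e1 he1 (fun h => hne (by rw [h]))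
  · ext x
    simp only [Finset.mem_biUnion, Finset.mem_image, Finset.mem_map, id]
    constructor
    · rintro ⟨_, ⟨e, he, rfl⟩, hx⟩
      rw [Finset.mem_map] at hx
      obtain ⟨y, hy, rfl⟩ := hx
      exact ⟨y, ⟨e, he, hy⟩, rfl⟩
    · rintro ⟨y, ⟨e, he, hy⟩, rfl⟩
      exact ⟨_, ⟨e, he, rfl⟩, Finset.mem_map_of_mem _ hy⟩

theorem t_S11 : S8 → S9 → S10 → S11 := by
  intro h8 h9 h10 k d hk hFC η hη
  obtain ⟨c, hc, n9, hn9⟩ := h9 k d hk η hη
  have ha : 0 < min (η / 4) (1 / 2) := lt_min (by linarith) (by norm_num)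
  obtain ⟨b, hb, n10, hn10⟩ := h10 k (by omega) c (min (η / 4) (1 / 2)) hc ha
  obtain ⟨n8, hn8⟩ := h8 k d (by omega) hFC (η / 2) b (by linarith) hb
  refine ⟨max (max n9 n10) (2 * n8), fun n hn hkn R hR => ?_⟩
  have hn9' : n9 ≤ n := (le_max_left _ _).trans ((le_max_left _ _).trans hn)
  have hn10' : n10 ≤ n := (le_max_right _ _).trans ((le_max_left _ _).trans hn)
  have hn8' : 2 * n8 ≤ n := (le_max_right _ _).trans hn
  obtain ⟨hA, hB⟩ := hn9 n hn9' R hR
  obtain ⟨Z, hZ, hZU⟩ := hn10 n hn10' (HC R d) (HC_card R d) hA hB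
  have hn0 : (0 : ℝ) ≤ n := Nat.cast_nonneg n
  have hZ1 : (Z.card : ℝ) ≤ η / 4 * n :=
    hZ.trans (mul_le_mul_of_nonneg_right (min_le_left _ _) hn0)
  have hZ2 : (Z.card : ℝ) ≤ 1 / 2 * n :=
    hZ.trans (mul_le_mul_of_nonneg_right (min_le_right _ _) hn0)
  have hV : Fintype.card {v : Fin n // v ∉ Z} = n - Z.card := by
    rw [Fintype.card_subtype_compl, Fintype.card_fin, Fintype.card_coe]
  have hZn : Z.card ≤ n := by
    have := Finset.card_le_univ Z
    rwa [Fintype.card_fin] at this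
  have hV' : (Fintype.card {v : Fin n // v ∉ Z} : ℝ) = n - Z.card := by
    rw [hV, Nat.cast_sub hZn]
  have hVn : n8 ≤ Fintype.card {v : Fin n // v ∉ Z} := by
    have h1 : (n8 : ℝ) ≤ (Fintype.card {v : Fin n // v ∉ Z} : ℝ) := by
      rw [hV']
      have h2 : (2 : ℝ) * n8 ≤ n := by exact_mod_cast hn8'
      linarith
    exact_mod_cast h1
  obtain ⟨M, hM, hd, hMc⟩ := hn8 {v : Fin n // v ∉ Z} (fun v w => R v.1 w.1)
    (sub_Big R η hη hR Z hZ1) hVn
  have hP := lift_M R d Z M hM hd
  set W' : Finset (Fin n) := (M.biUnion id).map (Function.Embedding.subtype _) with hW'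
  have hW'c : W'.card = (M.biUnion id).card := Finset.card_map _
  have hZW : Disjoint Z W' := by
    rw [Finset.disjoint_left]
    intro x hx hx'
    rw [hW', Finset.mem_map] at hx'
    obtain ⟨y, _, rfl⟩ := hx'
    exact y.2 hx
  -- the leftover
  let U : Finset (Fin n) := univ \ (Z ∪ W')
  have hUc : U.card + (Z.card + W'.card) = n := by
    have h1 : U.card = n - (Z ∪ W').card := by
      change (univ \ (Z ∪ W')).card = _
      rw [Finset.card_sdiff_of_subset (Finset.subset_univ _), Finset.card_univ, Fintype.card_fin]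
    have h2 : (Z ∪ W').card ≤ n := by
      have := Finset.card_le_univ (Z ∪ W')
      rwa [Fintype.card_fin] at this
    rw [Finset.card_union_of_disjoint hZW] at h1 h2
    omega
  have hPZ : PMon (HC R d) Z := by
    have := hZU ∅ (Finset.disjoint_empty_left _) (by
      rw [Finset.card_empty, Nat.cast_zero]; exact mul_nonneg hb.le hn0) (by
      rw [Finset.card_empty]; exact dvd_zero _)
    rwa [Finset.union_empty] at this
  have hkZ : k ∣ Z.card := PMon_card (HC R d) (HC_card R d) Z hPZ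
  have hkW : k ∣ W'.card := PMon_card (HC R d) (HC_card R d) W' hP
  have hkU : k ∣ U.card := by
    have h1 : k ∣ U.card + (Z.card + W'.card) := by rw [hUc]; exact hkn
    exact (Nat.dvd_add_left (dvd_add hkZ hkW)).1 h1
  have hUZ : Disjoint U Z := by
    rw [Finset.disjoint_left]
    intro x hx hx'
    exact (Finset.mem_sdiff.1 hx).2 (Finset.mem_union_left _ hx')
  have hUW : Disjoint U W' := by
    rw [Finset.disjoint_left]
    intro x hx hx'
    exact (Finset.mem_sdiff.1 hx).2 (Finset.mem_union_right _ hx')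
  have hUb : (U.card : ℝ) ≤ b * n := by
    have h1 : (U.card : ℝ) + (Z.card + W'.card) = n := by exact_mod_cast hUc
    rw [← hW'c, hV'] at hMc
    have h2 : b * ((n : ℝ) - Z.card) ≤ b * n :=
      mul_le_mul_of_nonneg_left (by linarith [(Nat.cast_nonneg Z.card : (0:ℝ) ≤ Z.card)]) hb.le
    linarith
  have hPU := hZU U hUZ hUb hkU
  have hfin : PMon (HC R d) ((Z ∪ U) ∪ W') :=
    PMon_union _ _ _ (Finset.disjoint_union_left.2 ⟨hZW, hUW⟩) hPU hP
  have huniv : (Z ∪ U) ∪ W' = univ := by
    apply Finset.eq_univ_of_forall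
    intro x
    by_cases hx : x ∈ Z ∪ W'
    · rcases Finset.mem_union.1 hx with h | h
      · exact Finset.mem_union_left _ (Finset.mem_union_left _ h)
      · exact Finset.mem_union_right _ h
    · exact Finset.mem_union_left _ (Finset.mem_union_right _ (Finset.mem_sdiff.2 ⟨Finset.mem_univ _, hx⟩))
  rw [huniv] at hfin
  exact to_equiv (by omega) hkn R d hfin

end Pool.Agent.W365.CFS11
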