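import Pool.Agent.W163.CF.Defs
import Pool.Agent.H115R4.Stubs

/-!
# S8: almost perfect tilings from LP duality and the nibble
-/

set_option autoImplicit false

namespace Pool.Agent.W365.CFS8

open Finset
open Pool.Agent.W163.CF

/-- functions determined by their values outside `T` -/
theorem card_le_of_det {V : Type} [Fintype V] [DecidableEq V] {k : ℕ} (F : Finset (Fin k → V))
    (T : Finset (Fin k)) (h : ∀ f ∈ F, ∀ g ∈ F, (∀ t, t ∉ T → f t = g t) → f = g) :
    F.card ≤ (Fintype.card V) ^ (k - T.card) := by
  classical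
  have h1 : Fintype.card ({t : Fin k // t ∉ T} → V) = (Fintype.card V) ^ (k - T.card) := by
    rw [Fintype.card_fun]
    congr 1
    rw [Fintype.card_subtype]
    have : (univ.filter (fun t : Fin k => t ∉ T)) = Tᶜ := by
      ext t
      simp
    rw [this, Finset.card_compl, Fintype.card_fin]
  rw [← h1, ← Finset.card_univ]
  refine Finset.card_le_card_of_injOn (fun f => fun t : {t : Fin k // t ∉ T} => f t.1)
    (fun _ _ => Finset.mem_coe.2 (Finset.mem_univ _)) ?_
  intro f hf g hg hfg
  refine h f (Finset.mem_coe.1 hf) g (Finset.mem_coe.1 hg) ?_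
  intro t ht
  exact congrFun hfg ⟨t, ht⟩

/-- the functions that are not injective -/
theorem card_noninj {V : Type} [Fintype V] [DecidableEq V] (k : ℕ) :
    ((univ : Finset (Fin k → V)).filter (fun f => ¬ Function.Injective f)).card ≤
      k ^ 2 * (Fintype.card V) ^ (k - 1) := by
  classical
  have hsub : ((univ : Finset (Fin k → V)).filter (fun f => ¬ Function.Injective f)) ⊆
      (univ : Finset (Fin k × Fin k)).biUnion (fun p =>
        (univ : Finset (Fin k → V)).filter (fun f => p.1 ≠ p.2 ∧ f p.1 = f p.2)) := by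
    intro f hf
    rw [Finset.mem_filter] at hf
    have h2 := hf.2
    unfold Function.Injective at h2
    push_neg at h2
    obtain ⟨i, j, hij, hne⟩ := h2
    rw [Finset.mem_biUnion]
    exact ⟨(i, j), Finset.mem_univ _, Finset.mem_filter.2 ⟨Finset.mem_univ _, hne, hij⟩⟩
  refine (Finset.card_le_card hsub).trans (Finset.card_biUnion_le.trans ?_)
  have hb : ∀ p ∈ (univ : Finset (Fin k × Fin k)),
      ((univ : Finset (Fin k → V)).filter (fun f => p.1 ≠ p.2 ∧ f p.1 = f p.2)).card ≤
        (Fintype.card V) ^ (k - 1) := by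
    intro p _
    by_cases hp : p.1 = p.2
    · have : ((univ : Finset (Fin k → V)).filter (fun f => p.1 ≠ p.2 ∧ f p.1 = f p.2)) = ∅ := by
        rw [Finset.filter_eq_empty_iff]
        intro f _ h
        exact h.1 hp
      rw [this, Finset.card_empty]
      exact Nat.zero_le _
    · have := card_le_of_det
        ((univ : Finset (Fin k → V)).filter (fun f => p.1 ≠ p.2 ∧ f p.1 = f p.2)) {p.1} (by
          intro f hf g hg h
          rw [Finset.mem_filter] at hf hg
          funext t
          by_cases ht : t = p.1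
          · rw [ht, hf.2.2, hg.2.2]
            exact h _ (by simpa using fun h' => hp h'.symm)
          · exact h t (by simpa using ht))
      rwa [Finset.card_singleton] at this
  refine (Finset.sum_le_sum hb).trans ?_
  rw [Finset.sum_const, Finset.card_univ, Fintype.card_prod, Fintype.card_fin, smul_eq_mul]
  ring_nf
  exact le_rfl

/-- the functions through two given vertices -/
theorem card_two {V : Type} [Fintype V] [DecidableEq V] (k : ℕ) (u v : V) (huv : u ≠ v) :
    ((univ : Finset (Fin k → V)).filter (fun f => (∃ i, f i = u) ∧ ∃ j, f j = v)).card ≤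
      k ^ 2 * (Fintype.card V) ^ (k - 2) := by
  classical
  have hsub : ((univ : Finset (Fin k → V)).filter (fun f => (∃ i, f i = u) ∧ ∃ j, f j = v)) ⊆
      (univ : Finset (Fin k × Fin k)).biUnion (fun p =>
        (univ : Finset (Fin k → V)).filter (fun f => f p.1 = u ∧ f p.2 = v)) := by
    intro f hf
    rw [Finset.mem_filter] at hf
    obtain ⟨_, ⟨i, hi⟩, ⟨j, hj⟩⟩ := hf
    rw [Finset.mem_biUnion]
    exact ⟨(i, j), Finset.mem_univ _, Finset.mem_filter.2 ⟨Finset.mem_univ _, hi, hj⟩⟩
  refine (Finset.card_le_card hsub).trans (Finset.card_biUnion_le.trans ?_)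
  have hb : ∀ p ∈ (univ : Finset (Fin k × Fin k)),
      ((univ : Finset (Fin k → V)).filter (fun f => f p.1 = u ∧ f p.2 = v)).card ≤
        (Fintype.card V) ^ (k - 2) := by
    intro p _
    by_cases hp : p.1 = p.2
    · have : ((univ : Finset (Fin k → V)).filter (fun f => f p.1 = u ∧ f p.2 = v)) = ∅ := by
        rw [Finset.filter_eq_empty_iff]
        intro f _ h
        apply huv
        rw [← h.1, ← h.2, hp]
      rw [this, Finset.card_empty]
      exact Nat.zero_le _
    · have := card_le_of_det
        ((univ : Finset (Fin k → V)).filter (fun f => f p.1 = u ∧ f p.2 = v)) {p.1, p.2} (by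
          intro f hf g hg h
          rw [Finset.mem_filter] at hf hg
          funext t
          by_cases ht : t = p.1
          · rw [ht, hf.2.1, hg.2.1]
          · by_cases ht2 : t = p.2
            · rw [ht2, hf.2.2, hg.2.2]
            · exact h t (by simp [ht, ht2]))
      rwa [Finset.card_pair hp] at this
  refine (Finset.sum_le_sum hb).trans ?_
  rw [Finset.sum_const, Finset.card_univ, Fintype.card_prod, Fintype.card_fin, smul_eq_mul]
  ring_nf
  exact le_rfl

/-- the injective copies -/
abbrev JJ {V : Type} (k : ℕ) (d : Fin k → Bool) (R : V → V → Prop) : Type :=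
  {f : Fin k → V // Function.Injective f ∧ PW R d f}

/-- the linear programme: a fractional packing with small weights and large total weight -/
theorem frac (h1 : S1) {V : Type} [Fintype V] [DecidableEq V] [Nonempty V]
    (k : ℕ) (hk : 2 ≤ k) (d : Fin k → Bool) (R : V → V → Prop) (c ε : ℝ) (hc : 0 < c) (hε : 0 < ε)
    (hε1 : ε ≤ 1) [Fintype (JJ k d R)]
    (hn : 2 * (k : ℝ) ^ 2 / c ≤ Fintype.card V)
    (h7 : ∀ y : V → ℝ, (∀ v, 0 ≤ y v) → k * ∑ v, y v ≤ (1 - ε) * (Fintype.card V : ℝ) →
      c * (Fintype.card V : ℝ) ^ k ≤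
        ({f : Fin k → V | PW R d f ∧ ∑ j, y (f j) ≤ 1 - ε / 2}.ncard : ℝ)) :
    ∃ w : JJ k d R → ℝ, (∀ f, 0 ≤ w f) ∧
      (∀ v, ∑ f ∈ univ.filter (fun f : JJ k d R => v ∈ univ.image f.1), w f ≤ 1) ∧
      (∀ f, w f ≤ 4 / (c * ε * k) / (Fintype.card V : ℝ) ^ (k - 1)) ∧
      (1 - ε) * (Fintype.card V : ℝ) / k ≤ ∑ f, w f := by
  classical
  set n : ℝ := (Fintype.card V : ℝ) with hn_def
  have hnpos : 0 < n := by
    rw [hn_def]
    exact_mod_cast Fintype.card_pos
  have hkpos : (0 : ℝ) < k := by
    have : 0 < k := by omega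
    exact_mod_cast this
  set cap : ℝ := 4 / (c * ε * k) / n ^ (k - 1) with hcap_def
  have hcap : 0 < cap := by
    rw [hcap_def]
    positivity
  obtain ⟨y, w, hy, hw, hj, hi, hyw⟩ := h1 (V ⊕ JJ k d R) (JJ k d R)
    (fun i f => Sum.elim (fun v => if v ∈ univ.image f.1 then (1 : ℝ) else 0)
      (fun g => if g = f then 1 / cap else 0) i)
    (by
      intro i f
      rcases i with v | g
      · simp only [Sum.elim_inl]
        split_ifs <;> norm_num
      · simp only [Sum.elim_inr]
        split_ifs
        · positivity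
        · exact le_rfl)
    (by
      intro f
      refine ⟨Sum.inr f, ?_⟩
      simp only [Sum.elim_inr, if_true]
      positivity)
  have hj' : ∀ f : JJ k d R, 1 ≤ ∑ i, y (Sum.inl (f.1 i)) + y (Sum.inr f) / cap := by
    intro f
    have h := hj f
    rw [Fintype.sum_sum_type] at h
    simp only [Sum.elim_inl, Sum.elim_inr] at h
    have e1 : ∑ v : V, y (Sum.inl v) * (if v ∈ univ.image f.1 then (1 : ℝ) else 0) =
        ∑ i, y (Sum.inl (f.1 i)) := by
      rw [← Finset.sum_image (s := univ) (g := f.1) (f := fun v => y (Sum.inl v))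
        (fun a _ b _ hab => f.2.1 hab)]
      rw [← Finset.sum_filter_add_sum_filter_not univ (fun v => v ∈ univ.image f.1)]
      have e2 : ∑ v ∈ univ.filter (fun v => v ∉ univ.image f.1),
          y (Sum.inl v) * (if v ∈ univ.image f.1 then (1 : ℝ) else 0) = 0 := by
        refine Finset.sum_eq_zero ?_
        intro v hv
        rw [Finset.mem_filter] at hv
        rw [if_neg hv.2, mul_zero]
      have e3 : univ.filter (fun v => v ∈ univ.image f.1) = univ.image f.1 := by
        ext v
        simp
      rw [e2, add_zero, e3]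
      refine Finset.sum_congr rfl ?_
      intro v hv
      rw [if_pos hv, mul_one]
    have e4 : ∑ g : JJ k d R, y (Sum.inr g) * (if g = f then 1 / cap else 0) =
        y (Sum.inr f) / cap := by
      rw [Finset.sum_eq_single f]
      · rw [if_pos rfl]
        ring
      · intro g _ hg
        rw [if_neg hg, mul_zero]
      · intro h
        exact absurd (Finset.mem_univ _) h
    rw [e1, e4] at h
    exact h
  refine ⟨w, hw, ?_, ?_, ?_⟩
  · intro v
    have h := hi (Sum.inl v)
    simp only [Sum.elim_inl] at h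
    refine le_trans (le_of_eq ?_) h
    rw [Finset.sum_filter]
    refine Finset.sum_congr rfl ?_
    intro f _
    split_ifs <;> simp
  · intro f
    have h := hi (Sum.inr f)
    simp only [Sum.elim_inr] at h
    rw [Finset.sum_eq_single f] at h
    · rw [if_pos rfl, mul_one_div, div_le_one hcap] at h
      exact h
    · intro g _ hg
      rw [if_neg (fun e => hg e.symm), mul_zero]
    · intro h
      exact absurd (Finset.mem_univ _) h
  · rw [← hyw, Fintype.sum_sum_type]
    have hz : 0 ≤ ∑ f : JJ k d R, y (Sum.inr f) := Finset.sum_nonneg (fun f _ => hy _)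
    have hv : 0 ≤ ∑ v : V, y (Sum.inl v) := Finset.sum_nonneg (fun f _ => hy _)
    by_cases hcase : k * ∑ v : V, y (Sum.inl v) ≤ (1 - ε) * n
    · -- many light copies
      have h := h7 (fun v => y (Sum.inl v)) (fun v => hy _) hcase
      rw [Set.ncard_eq_toFinset_card'] at h
      set F : Finset (Fin k → V) := (univ : Finset (Fin k → V)).filter
        (fun f => PW R d f ∧ ∑ j, y (Sum.inl (f j)) ≤ 1 - ε / 2) with hF
      have hF' : {f : Fin k → V | PW R d f ∧ ∑ j, y (Sum.inl (f j)) ≤ 1 - ε / 2}.toFinset = F := by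
        ext f
        simp [hF]
      rw [hF'] at h
      set G : Finset (JJ k d R) := univ.filter
        (fun f => ∑ j, y (Sum.inl (f.1 j)) ≤ 1 - ε / 2) with hG
      have hFG : F ⊆ G.image (fun f => f.1) ∪
          (univ : Finset (Fin k → V)).filter (fun f => ¬ Function.Injective f) := by
        intro f hf
        rw [hF, Finset.mem_filter] at hf
        rw [Finset.mem_union]
        by_cases hinj : Function.Injective f
        · left
          rw [Finset.mem_image]
          exact ⟨⟨f, hinj, hf.2.1⟩, Finset.mem_filter.2 ⟨Finset.mem_univ _, hf.2.2⟩, rfl⟩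
        · right
          exact Finset.mem_filter.2 ⟨Finset.mem_univ _, hinj⟩
      have hcard : (F.card : ℝ) ≤ G.card + (k : ℝ) ^ 2 * n ^ (k - 1) := by
        have h2 := (Finset.card_le_card hFG).trans (Finset.card_union_le _ _)
        have h3 := h2.trans (add_le_add Finset.card_image_le (card_noninj (V := V) k))
        rw [hn_def]
        exact_mod_cast h3
      have hnk : n ^ k = n * n ^ (k - 1) := by
        rw [← pow_succ']
        congr 1
        omega
      have hG1 : c / 2 * n ^ k ≤ G.card := by
        have h4 : (k : ℝ) ^ 2 * n ^ (k - 1) ≤ c / 2 * n ^ k := by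
          rw [hnk]
          have h5 : (k : ℝ) ^ 2 ≤ c / 2 * n := by
            rw [div_le_iff₀ hc] at hn
            linarith
          have h6 : 0 ≤ n ^ (k - 1) := by positivity
          nlinarith [mul_le_mul_of_nonneg_right h5 h6]
        linarith
      have hG2 : (G.card : ℝ) * (cap * ε / 2) ≤ ∑ f : JJ k d R, y (Sum.inr f) := by
        have h8 : ∑ _f ∈ G, (cap * ε / 2) ≤ ∑ f ∈ G, y (Sum.inr f) := by
          refine Finset.sum_le_sum ?_
          intro f hf
          rw [hG, Finset.mem_filter] at hf
          have h9 := hj' f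
          have h10 : ε / 2 ≤ y (Sum.inr f) / cap := by linarith [hf.2]
          rw [le_div_iff₀ hcap] at h10
          linarith
        rw [Finset.sum_const, nsmul_eq_mul] at h8
        refine h8.trans ?_
        exact Finset.sum_le_sum_of_subset_of_nonneg (Finset.subset_univ _) (fun _ _ _ => hy _)
      have hG3 : n / k ≤ (G.card : ℝ) * (cap * ε / 2) := by
        have h11 : c / 2 * n ^ k * (cap * ε / 2) = n / k := by
          rw [hcap_def, hnk]
          field_simp
          ring
        rw [← h11]
        exact mul_le_mul_of_nonneg_right hG1 (by positivity)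
      have h12 : (1 - ε) * n / k ≤ n / k := by
        apply div_le_div_of_nonneg_right _ hkpos.le
        nlinarith
      linarith
    · push_neg at hcase
      have h13 : (1 - ε) * n / k ≤ ∑ v : V, y (Sum.inl v) := by
        rw [div_le_iff₀ hkpos]
        linarith
      linarith

theorem t_S8 (hn : H115R4.nibble) : S1 → S7 → S8 := by
  intro h1 h7 k d hk hFC η θ hη hθ
  classical
  set θ' : ℝ := min θ 1 with hθ'
  have hθ'0 : 0 < θ' := lt_min hθ one_pos
  have hθ'1 : θ' ≤ 1 := min_le_right _ _
  have hθ'2 : θ' ≤ θ := min_le_left _ _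
  obtain ⟨c, hc, h7'⟩ := h7 k d hk hFC η (θ' / 2) hη (by linarith) (by linarith)
  obtain ⟨κ, hκ, hnib⟩ := hn k (θ' / 2) (by linarith)
  have hkpos : (0 : ℝ) < k := by
    have : 0 < k := by omega
    exact_mod_cast this
  set K : ℝ := 4 / (c * (θ' / 2) * k) with hK
  have hKpos : 0 < K := by rw [hK]; positivity
  obtain ⟨n0, hn0⟩ := exists_nat_ge (1 + 2 * (k : ℝ) ^ 2 / c + K * (k : ℝ) ^ 2 / κ)
  refine ⟨n0, ?_⟩
  intro V _ _ R hR hcardV
  set n : ℝ := (Fintype.card V : ℝ) with hn_def
  have hnn : 1 + 2 * (k : ℝ) ^ 2 / c + K * (k : ℝ) ^ 2 / κ ≤ n := by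
    refine hn0.trans ?_
    rw [hn_def]
    exact_mod_cast hcardV
  have p1 : 0 < 2 * (k : ℝ) ^ 2 / c := by positivity
  have p2 : 0 < K * (k : ℝ) ^ 2 / κ := by positivity
  have hn1 : 1 ≤ n := by linarith
  have hnpos : 0 < n := by linarith
  haveI : Nonempty V := by
    rw [← Fintype.card_pos_iff]
    have : (0 : ℝ) < (Fintype.card V : ℝ) := hnpos
    exact_mod_cast this
  obtain ⟨w, hw0, hwl, hwc, hws⟩ := frac h1 k hk d R c (θ' / 2) hc (by linarith) (by linarith)
    (by linarith) (h7' V R hR)
  have hKk : K * (k : ℝ) ^ 2 ≤ κ * n := by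
    have : K * (k : ℝ) ^ 2 / κ ≤ n := by linarith
    rw [div_le_iff₀ hκ] at this
    linarith
  have hk1 : (1 : ℝ) ≤ (k : ℝ) ^ 2 := by
    have h2 : (2 : ℝ) ≤ k := by exact_mod_cast hk
    nlinarith
  have hwκ : ∀ f : JJ k d R, w f ≤ κ := by
    intro f
    refine (hwc f).trans ?_
    rw [div_le_iff₀ (by positivity)]
    have h2 : n ≤ n ^ (k - 1) := by
      calc n = n ^ 1 := (pow_one n).symm
        _ ≤ n ^ (k - 1) := pow_le_pow_right₀ hn1 (by omega)
    have h3 : K ≤ κ * n := by nlinarith
    have h4 : κ * n ≤ κ * n ^ (k - 1) := mul_le_mul_of_nonneg_left h2 hκ.le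
    linarith
  obtain ⟨M, hM1, -, hM3⟩ := hnib (JJ k d R) V (fun f => univ.image f.1) w hw0
    (by
      intro f
      exact ⟨f.1 ⟨0, by omega⟩, Finset.mem_image_of_mem _ (Finset.mem_univ _)⟩)
    (by
      intro f
      exact Finset.card_image_le.trans (by simp))
    hwl
    (by
      intro u v huv
      have hsub : ((univ.filter (fun f : JJ k d R => u ∈ univ.image f.1 ∧ v ∈ univ.image f.1)).image
          (fun f => f.1)) ⊆
          ((univ : Finset (Fin k → V)).filter (fun f => (∃ i, f i = u) ∧ ∃ j, f j = v)) := by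
        intro f hf
        rw [Finset.mem_image] at hf
        obtain ⟨g, hg, rfl⟩ := hf
        rw [Finset.mem_filter] at hg ⊢
        simpa using hg.2
      have hcd : (univ.filter (fun f : JJ k d R => u ∈ univ.image f.1 ∧ v ∈ univ.image f.1)).card ≤
          k ^ 2 * (Fintype.card V) ^ (k - 2) := by
        rw [← Finset.card_image_of_injective _ (Subtype.val_injective)]
        exact (Finset.card_le_card hsub).trans (card_two k u v huv)
      refine (Finset.sum_le_sum (fun f _ => hwc f)).trans ?_
      rw [Finset.sum_const, nsmul_eq_mul]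
      have h2 : ((univ.filter (fun f : JJ k d R => u ∈ univ.image f.1 ∧ v ∈ univ.image f.1)).card : ℝ)
          ≤ (k : ℝ) ^ 2 * n ^ (k - 2) := by
        rw [hn_def]
        exact_mod_cast hcd
      have h3 : 0 ≤ K / n ^ (k - 1) := by positivity
      refine (mul_le_mul_of_nonneg_right h2 h3).trans ?_
      have h4 : n ^ (k - 1) = n * n ^ (k - 2) := by
        rw [← pow_succ']
        congr 1
        omega
      have h5 : (k : ℝ) ^ 2 * n ^ (k - 2) * (K / n ^ (k - 1)) = K * (k : ℝ) ^ 2 / n := by
        rw [h4]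
        field_simp
      rw [h5, div_le_iff₀ hnpos]
      exact hKk)
    hwκ
  refine ⟨M.image (fun f => univ.image f.1), ?_, ?_, ?_⟩
  · intro e he
    rw [Finset.mem_image] at he
    obtain ⟨f, _, rfl⟩ := he
    exact ⟨f.1, f.2.1, f.2.2, rfl⟩
  · intro e he e' he' hne
    rw [Finset.mem_image] at he he'
    obtain ⟨f, hf, rfl⟩ := he
    obtain ⟨g, hg, rfl⟩ := he'
    refine hM1 f hf g hg ?_
    rintro rfl
    exact hne rfl
  · have e1 : (M.image (fun f => univ.image f.1)).biUnion id = M.biUnion (fun f => univ.image f.1) := by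
      rw [Finset.image_biUnion]
      rfl
    have e2 : (M.biUnion (fun f => univ.image f.1)).card = M.card * k := by
      rw [Finset.card_biUnion (fun f hf g hg hfg => hM1 f hf g hg hfg)]
      have : ∀ f ∈ M, (univ.image f.1).card = k := by
        intro f _
        rw [Finset.card_image_of_injective _ f.2.1, Finset.card_univ, Fintype.card_fin]
      rw [Finset.sum_congr rfl this, Finset.sum_const, smul_eq_mul]
    rw [e1, e2]
    push_cast
    have h2 : (1 - θ' / 2) * ((1 - θ' / 2) * n / k) ≤ (M.card : ℝ) :=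
      (mul_le_mul_of_nonneg_left hws (by linarith)).trans hM3
    have h3 : (1 - θ' / 2) * ((1 - θ' / 2) * n / k) * k = (1 - θ' / 2) ^ 2 * n := by
      field_simp
    have h4 : (1 - θ' / 2) ^ 2 * n ≤ (M.card : ℝ) * k := by
      rw [← h3]
      exact mul_le_mul_of_nonneg_right h2 hkpos.le
    have h5 : (1 - θ) * n ≤ (1 - θ' / 2) ^ 2 * n := by
      apply mul_le_mul_of_nonneg_right _ hnpos.le
      nlinarith [sq_nonneg θ']
    linarith

end Pool.Agent.W365.CFS8
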