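import Pool.Agent.W576.Defs2

/-!
# Delta in an adapted frame
-/

namespace Pool.Agent.W365.DeltaFrame

open Pool.Agent.W576 Matrix

/-- the determinant as a bilinear function of the first two rows -/
noncomputable def DD {a : ℕ} (f : Fin a → Fin (a + 2) → ℝ) :
    (Fin (a + 2) → ℝ) →ₗ[ℝ] (Fin (a + 2) → ℝ) →ₗ[ℝ] ℝ :=
  LinearMap.mk₂ ℝ (fun u v =>
    (Matrix.detRowAlternating (R := ℝ) (n := Fin (a + 2))).toMultilinearMap
      (Fin.cons u (Fin.cons v f : Fin (a + 1) → Fin (a + 2) → ℝ)))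
    (fun _ _ _ => MultilinearMap.cons_add _ _ _ _)
    (fun _ _ _ => MultilinearMap.cons_smul _ _ _ _)
    (fun u _ _ => MultilinearMap.cons_add
      ((Matrix.detRowAlternating (R := ℝ) (n := Fin (a + 2))).toMultilinearMap.curryLeft u) _ _ _)
    (fun _ u _ => MultilinearMap.cons_smul
      ((Matrix.detRowAlternating (R := ℝ) (n := Fin (a + 2))).toMultilinearMap.curryLeft u) _ _ _)

theorem DD_apply {a : ℕ} (f : Fin a → Fin (a + 2) → ℝ) (u v : Fin (a + 2) → ℝ) :
    DD f u v = (Matrix.of (Fin.cons u (Fin.cons v f) : Fin (a + 2) → Fin (a + 2) → ℝ)).det := rfl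

theorem lor_comm {d : ℕ} (x y : Fin d → ℝ) : lor x y = lor y x := by
  unfold lor
  exact Finset.sum_congr rfl fun i _ => by ring

theorem lor_single_right {d : ℕ} (x : Fin d → ℝ) (j : Fin d) :
    lor x (Pi.single j 1) = eta j * x j := by
  classical
  unfold lor
  rw [Finset.sum_eq_single j]
  · simp
  · intro b _ hb
    simp [hb]
  · intro h; exact absurd (Finset.mem_univ j) h

/-- the diagonal matrix of signs -/
def JJ (d : ℕ) : Matrix (Fin d) (Fin d) ℝ := Matrix.diagonal eta

theorem eta_sq {d : ℕ} (i : Fin d) : (eta i : ℝ) * eta i = 1 := by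
  unfold eta; split_ifs <;> norm_num

theorem JJ_sq (d : ℕ) : JJ d * JJ d = 1 := by
  rw [JJ, Matrix.diagonal_mul_diagonal]
  rw [← Matrix.diagonal_one]
  congr 1
  ext i
  exact eta_sq i

theorem so_left {d : ℕ} {h : Matrix (Fin d) (Fin d) ℝ} (hh : IsSO h) :
    hᵀ * JJ d * h = JJ d := by
  ext i j
  have e := hh.1 (Pi.single i 1) (Pi.single j 1)
  rw [lor_single_right] at e
  have e2 : lor (h.mulVec (Pi.single i 1)) (h.mulVec (Pi.single j 1)) =
      (hᵀ * JJ d * h) i j := by
    rw [Matrix.mul_apply]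
    unfold lor
    refine Finset.sum_congr rfl fun k _ => ?_
    rw [JJ, Matrix.mul_diagonal, Matrix.transpose_apply, Matrix.mulVec_single_one,
      Matrix.mulVec_single_one]
    simp only [Matrix.col_apply]
    ring
  rw [← e2, e, JJ, Matrix.diagonal_apply]
  by_cases hij : i = j
  · subst hij; simp
  · rw [if_neg hij]; simp [Ne.symm hij]

theorem so_inv {d : ℕ} {h : Matrix (Fin d) (Fin d) ℝ} (hh : IsSO h) :
    (JJ d * hᵀ * JJ d) * h = 1 := by
  rw [mul_assoc, mul_assoc, ← mul_assoc hᵀ, so_left hh, JJ_sq]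

theorem so_inv' {d : ℕ} {h : Matrix (Fin d) (Fin d) ℝ} (hh : IsSO h) :
    h * (JJ d * hᵀ * JJ d) = 1 := by
  exact mul_eq_one_comm.1 (so_inv hh)

theorem so_right {d : ℕ} {h : Matrix (Fin d) (Fin d) ℝ} (hh : IsSO h) :
    h * JJ d * hᵀ = JJ d := by
  have e := congrArg (fun M => M * JJ d) (so_inv' hh)
  simp only [one_mul] at e
  rw [← mul_assoc, mul_assoc, JJ_sq, mul_one, ← mul_assoc] at e
  exact e

theorem trace_inv {d : ℕ} {h : Matrix (Fin d) (Fin d) ℝ} (hh : IsSO h)
    (B : (Fin d → ℝ) →ₗ[ℝ] (Fin d → ℝ) →ₗ[ℝ] ℝ) :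
    ∑ c, eta c * B (Pi.single c 1) (Pi.single c 1) =
      ∑ c, eta c * B (h.mulVec (Pi.single c 1)) (h.mulVec (Pi.single c 1)) := by
  have hexp : ∀ c : Fin d, h.mulVec (Pi.single c 1) = ∑ i, h i c • (Pi.single i 1 : Fin d → ℝ) := by
    intro c
    rw [Matrix.mulVec_single_one]
    ext k
    simp [Finset.sum_apply, Pi.single_apply, Matrix.col_apply]
  have e1 : ∀ c : Fin d, eta c * B (h.mulVec (Pi.single c 1)) (h.mulVec (Pi.single c 1)) =
      ∑ i, ∑ j, (h i c * eta c * h j c) * B (Pi.single i 1) (Pi.single j 1) := by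
    intro c
    rw [hexp c]
    simp only [map_sum, map_smul, LinearMap.sum_apply, LinearMap.smul_apply, smul_eq_mul,
      Finset.mul_sum]
    rw [Finset.sum_comm]
    refine Finset.sum_congr rfl fun i _ => Finset.sum_congr rfl fun j _ => by ring
  simp_rw [e1]
  rw [Finset.sum_comm]
  refine Finset.sum_congr rfl fun i _ => ?_
  rw [Finset.sum_comm]
  have e2 : ∀ j, ∑ c, (h i c * eta c * h j c) * B (Pi.single i 1) (Pi.single j 1) =
      (if i = j then eta i else 0) * B (Pi.single i 1) (Pi.single j 1) := by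
    intro j
    rw [← Finset.sum_mul]
    congr 1
    have := congrFun (congrFun (so_right hh) i) j
    rw [JJ, Matrix.diagonal_apply, Matrix.mul_apply] at this
    rw [← this]
    refine Finset.sum_congr rfl fun c _ => ?_
    rw [Matrix.mul_diagonal, Matrix.transpose_apply]
  simp_rw [e2]
  simp

theorem rot_two {a : ℕ} (k : Fin (a + 2)) :
    (((finRotate (a + 2)).trans (finRotate (a + 2)) k : Fin (a + 2)) : ℕ) =
      if (k : ℕ) < a then (k : ℕ) + 2 else (k : ℕ) - a := by
  rw [Equiv.trans_apply]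
  rw [finRotate_apply, finRotate_apply]
  have h1 : ((k + 1 : Fin (a + 2)) : ℕ) = if (k : ℕ) = a + 1 then 0 else (k : ℕ) + 1 := by
    rw [Fin.val_add_one]
    simp only [Fin.ext_iff, Fin.val_last]
  have h2 : ((k + 1 + 1 : Fin (a + 2)) : ℕ) = if ((k + 1 : Fin (a + 2)) : ℕ) = a + 1 then 0
      else ((k + 1 : Fin (a + 2)) : ℕ) + 1 := by
    rw [Fin.val_add_one]
    simp only [Fin.ext_iff, Fin.val_last]
  have := k.2
  rcases lt_trichotomy (k : ℕ) a with h | h | h
  · rw [if_neg (by omega)] at h1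
    rw [h1, if_neg (by omega)] at h2
    rw [h2, if_pos h]
  · rw [if_neg (by omega)] at h1
    rw [h1, if_pos (by omega)] at h2
    rw [h2, if_neg (by omega)]
    omega
  · rw [if_pos (by omega)] at h1
    rw [h1, if_neg (by omega)] at h2
    rw [h2, if_neg (by omega)]
    omega

theorem det_pad {a : ℕ} (x : Fin a → Fin a → ℝ) (u v : Fin (a + 2) → ℝ) :
    (Matrix.of (Fin.cons u (Fin.cons v (fun i => pad (x i))) :
      Fin (a + 2) → Fin (a + 2) → ℝ)).det =
    (u ⟨a, by omega⟩ * v ⟨a + 1, by omega⟩ - u ⟨a + 1, by omega⟩ * v ⟨a, by omega⟩) *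
      (Matrix.of x).det := by
  set M : Matrix (Fin (a + 2)) (Fin (a + 2)) ℝ :=
    (Matrix.of (Fin.cons u (Fin.cons v (fun i => pad (x i))) :
      Fin (a + 2) → Fin (a + 2) → ℝ)) with hM
  set π : Equiv.Perm (Fin (a + 2)) := (finRotate (a + 2)).trans (finRotate (a + 2)) with hπ
  have hsign : Equiv.Perm.sign π = 1 := by
    rw [hπ, Equiv.Perm.sign_trans]
    exact Int.units_mul_self _
  have h1 : (M.submatrix π id).det = M.det := by
    rw [Matrix.det_permute, hsign]; simp
  have h2 : ((M.submatrix π id).submatrix (finSumFinEquiv (m := a) (n := 2))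
      (finSumFinEquiv (m := a) (n := 2))).det = (M.submatrix π id).det :=
    Matrix.det_submatrix_equiv_self _ _
  have h3 : ((M.submatrix π id).submatrix (finSumFinEquiv (m := a) (n := 2))
      (finSumFinEquiv (m := a) (n := 2))) =
      Matrix.fromBlocks (Matrix.of x) 0
        (Matrix.of (fun i j => if i = 0 then u (Fin.castAdd 2 j) else v (Fin.castAdd 2 j)))
        (Matrix.of (fun i j => if i = 0 then u (Fin.natAdd a j) else v (Fin.natAdd a j))) := by
    have hp1 : ∀ i : Fin a, π (Fin.castAdd 2 i) = i.succ.succ := by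
      intro i
      apply Fin.ext
      rw [hπ, rot_two]
      simp
    have hp2 : π (Fin.natAdd a 0) = 0 := by
      apply Fin.ext
      rw [hπ, rot_two]
      simp
    have hp3 : π (Fin.natAdd a 1) = 1 := by
      apply Fin.ext
      rw [hπ, rot_two]
      simp
    ext (i | i) (j | j)
    · simp only [Matrix.submatrix_apply, finSumFinEquiv_apply_left, id, Matrix.fromBlocks_apply₁₁,
        Matrix.of_apply, hp1, hM, Fin.cons_succ]
      simp [pad]
    · simp only [Matrix.submatrix_apply, finSumFinEquiv_apply_left, id, Matrix.fromBlocks_apply₁₂,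
        Matrix.of_apply, hp1, hM, Fin.cons_succ, finSumFinEquiv_apply_right]
      simp [pad]
    · fin_cases i
      · simp only [Matrix.submatrix_apply, finSumFinEquiv_apply_left, id,
          Matrix.fromBlocks_apply₂₁, Matrix.of_apply, hM, finSumFinEquiv_apply_right]
        have : π (Fin.natAdd a ((fun i => i) ⟨0, by norm_num⟩ : Fin 2)) = 0 := hp2
        rw [this]
        simp
      · simp only [Matrix.submatrix_apply, finSumFinEquiv_apply_left, id,
          Matrix.fromBlocks_apply₂₁, Matrix.of_apply, hM, finSumFinEquiv_apply_right]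
        have : π (Fin.natAdd a ((fun i => i) ⟨1, by norm_num⟩ : Fin 2)) = Fin.succ 0 := by
          rw [Fin.succ_zero_eq_one]; exact hp3
        rw [this, Fin.cons_succ]
        simp
    · fin_cases i
      · simp only [Matrix.submatrix_apply, id,
          Matrix.fromBlocks_apply₂₂, Matrix.of_apply, hM, finSumFinEquiv_apply_right]
        have : π (Fin.natAdd a ((fun i => i) ⟨0, by norm_num⟩ : Fin 2)) = 0 := hp2
        rw [this]
        simp
      · simp only [Matrix.submatrix_apply, id,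
          Matrix.fromBlocks_apply₂₂, Matrix.of_apply, hM, finSumFinEquiv_apply_right]
        have : π (Fin.natAdd a ((fun i => i) ⟨1, by norm_num⟩ : Fin 2)) = Fin.succ 0 := by
          rw [Fin.succ_zero_eq_one]; exact hp3
        rw [this, Fin.cons_succ]
        simp
  rw [← h1, ← h2, h3, Matrix.det_fromBlocks_zero₁₂, Matrix.det_fin_two]
  simp only [Matrix.of_apply, if_true, one_ne_zero, if_false]
  have e0 : (Fin.natAdd a (0 : Fin 2)) = (⟨a, by omega⟩ : Fin (a + 2)) := by
    apply Fin.ext; simp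
  have e1 : (Fin.natAdd a (1 : Fin 2)) = (⟨a + 1, by omega⟩ : Fin (a + 2)) := by
    apply Fin.ext; simp
  rw [e0, e1]
  ring

theorem Delta_frame {a : ℕ} (ha : 1 ≤ a) (X h : Matrix (Fin (a+2)) (Fin (a+2)) ℝ)
    (hX : ∀ x y, lor (X.mulVec x) y = - lor x (X.mulVec y)) (hh : IsSO h)
    (x : Fin a → Fin a → ℝ) :
    Delta X (fun i => h.mulVec (pad (x i))) =
      lor (X.mulVec (h.mulVec (Pi.single ⟨a, by omega⟩ 1))) (h.mulVec (Pi.single ⟨a+1, by omega⟩ 1)) *
        (Matrix.of x).det := by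
  set f : Fin a → Fin (a + 2) → ℝ := fun i => h.mulVec (pad (x i)) with hf
  set Y : Matrix (Fin (a+2)) (Fin (a+2)) ℝ := (JJ (a + 2) * hᵀ * JJ (a + 2)) * X * h with hY
  have hYh : ∀ z, h.mulVec (Y.mulVec z) = X.mulVec (h.mulVec z) := by
    intro z
    rw [Matrix.mulVec_mulVec, Matrix.mulVec_mulVec, hY, ← mul_assoc, ← mul_assoc, so_inv' hh,
      one_mul]
  -- step 1
  have s1 : Delta X f = (1 / 2) * ∑ c, eta c *
      DD f (h.mulVec (Pi.single c 1)) (X.mulVec (h.mulVec (Pi.single c 1))) := by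
    have := trace_inv hh ((DD f).compl₂ (Matrix.mulVecLin X))
    simp only [LinearMap.compl₂_apply, Matrix.mulVecLin_apply] at this
    rw [← this]
    rfl
  have s2 : ∀ c : Fin (a + 2), DD f (h.mulVec (Pi.single c 1))
      (X.mulVec (h.mulVec (Pi.single c 1))) =
      ((Pi.single c (1 : ℝ) : Fin (a + 2) → ℝ) ⟨a, by omega⟩ *
          Y.mulVec (Pi.single c 1) ⟨a + 1, by omega⟩ -
        (Pi.single c (1 : ℝ) : Fin (a + 2) → ℝ) ⟨a + 1, by omega⟩ *
          Y.mulVec (Pi.single c 1) ⟨a, by omega⟩) * (Matrix.of x).det := by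
    intro c
    rw [← det_pad, ← hYh, DD_apply]
    have e : (Matrix.of (Fin.cons (h.mulVec (Pi.single c 1))
        (Fin.cons (h.mulVec (Y.mulVec (Pi.single c 1))) f) : Fin (a + 2) → Fin (a + 2) → ℝ)) =
        (Matrix.of (Fin.cons (Pi.single c (1 : ℝ)) (Fin.cons (Y.mulVec (Pi.single c 1))
          (fun i => pad (x i))) : Fin (a + 2) → Fin (a + 2) → ℝ)) * hᵀ := by
      ext i j
      rw [Matrix.mul_apply]
      refine Fin.cases ?_ (fun i => ?_) i
      · simp only [Matrix.of_apply, Fin.cons_zero, Matrix.transpose_apply, Matrix.mulVec,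
          dotProduct]
        exact Finset.sum_congr rfl fun k _ => mul_comm _ _
      · refine Fin.cases ?_ (fun i => ?_) i
        · simp only [Matrix.of_apply, Fin.cons_zero, Fin.cons_succ, Matrix.transpose_apply]
          rw [Matrix.mulVec, dotProduct]
          exact Finset.sum_congr rfl fun k _ => mul_comm _ _
        · simp only [Matrix.of_apply, Fin.cons_succ, Matrix.transpose_apply, hf]
          rw [Matrix.mulVec, dotProduct]
          exact Finset.sum_congr rfl fun k _ => mul_comm _ _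
    rw [e, Matrix.det_mul, Matrix.det_transpose, hh.2, mul_one]
  have eta1 : (eta (⟨a, by omega⟩ : Fin (a + 2)) : ℝ) = 1 := by
    unfold eta; rw [if_neg]; show ¬ a = 0; omega
  have eta2 : (eta (⟨a + 1, by omega⟩ : Fin (a + 2)) : ℝ) = 1 := by
    unfold eta; rw [if_neg]; show ¬ a + 1 = 0; omega
  -- entries of Y
  have y1 : Y.mulVec (Pi.single ⟨a, by omega⟩ 1) ⟨a + 1, by omega⟩ =
      lor (X.mulVec (h.mulVec (Pi.single ⟨a, by omega⟩ 1)))
        (h.mulVec (Pi.single ⟨a+1, by omega⟩ 1)) := by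
    rw [← hYh, hh.1, lor_single_right, eta2, one_mul]
  have y2 : Y.mulVec (Pi.single ⟨a + 1, by omega⟩ 1) ⟨a, by omega⟩ =
      - lor (X.mulVec (h.mulVec (Pi.single ⟨a, by omega⟩ 1)))
        (h.mulVec (Pi.single ⟨a+1, by omega⟩ 1)) := by
    have : Y.mulVec (Pi.single ⟨a + 1, by omega⟩ 1) ⟨a, by omega⟩ =
        lor (X.mulVec (h.mulVec (Pi.single ⟨a + 1, by omega⟩ 1)))
        (h.mulVec (Pi.single ⟨a, by omega⟩ 1)) := by
      rw [← hYh, hh.1, lor_single_right, eta1, one_mul]
    rw [this, hX, lor_comm]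
  rw [s1]
  simp_rw [s2]
  have s3 : ∑ c : Fin (a + 2), eta c * (((Pi.single c (1 : ℝ) : Fin (a + 2) → ℝ) ⟨a, by omega⟩ *
          Y.mulVec (Pi.single c 1) ⟨a + 1, by omega⟩ -
        (Pi.single c (1 : ℝ) : Fin (a + 2) → ℝ) ⟨a + 1, by omega⟩ *
          Y.mulVec (Pi.single c 1) ⟨a, by omega⟩) * (Matrix.of x).det) =
      (Y.mulVec (Pi.single ⟨a, by omega⟩ 1) ⟨a + 1, by omega⟩ -
        Y.mulVec (Pi.single ⟨a + 1, by omega⟩ 1) ⟨a, by omega⟩) * (Matrix.of x).det := by
    have t1 : ∀ c : Fin (a + 2), eta c * (((Pi.single c (1 : ℝ) : Fin (a + 2) → ℝ) ⟨a, by omega⟩ *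
          Y.mulVec (Pi.single c 1) ⟨a + 1, by omega⟩ -
        (Pi.single c (1 : ℝ) : Fin (a + 2) → ℝ) ⟨a + 1, by omega⟩ *
          Y.mulVec (Pi.single c 1) ⟨a, by omega⟩) * (Matrix.of x).det) =
        (if c = ⟨a, by omega⟩ then eta c * Y.mulVec (Pi.single c 1) ⟨a + 1, by omega⟩ *
          (Matrix.of x).det else 0) -
        (if c = ⟨a + 1, by omega⟩ then eta c * Y.mulVec (Pi.single c 1) ⟨a, by omega⟩ *
          (Matrix.of x).det else 0) := by
      intro c
      simp only [Pi.single_apply, eq_comm (b := c)]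
      split_ifs <;> ring
    simp_rw [t1]
    rw [Finset.sum_sub_distrib, Finset.sum_ite_eq', Finset.sum_ite_eq']
    simp only [Finset.mem_univ, if_true, eta1, eta2]
    ring
  rw [s3, y1, y2]
  ring

end Pool.Agent.W365.DeltaFrame
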