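import Pool.Agent.W576.Defs3

/-!
# Two frames agreeing on a face differ by a rotation
-/

namespace Pool.Agent.W365.ConfRot

open Pool.Agent.W576 Matrix

section ring

variable {R : Type*} [CommRing R] {d : ℕ}

theorem lor_comm (x y : Fin d → R) : lor x y = lor y x := by
  unfold lor
  exact Finset.sum_congr rfl fun i _ => by ring

theorem lor_add_left (x x' y : Fin d → R) : lor (x + x') y = lor x y + lor x' y := by
  unfold lor
  rw [← Finset.sum_add_distrib]
  exact Finset.sum_congr rfl fun i _ => by rw [Pi.add_apply]; ring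

theorem lor_smul_left (c : R) (x y : Fin d → R) : lor (c • x) y = c * lor x y := by
  unfold lor
  rw [Finset.mul_sum]
  exact Finset.sum_congr rfl fun i _ => by rw [Pi.smul_apply, smul_eq_mul]; ring

theorem lor_add_right (x y y' : Fin d → R) : lor x (y + y') = lor x y + lor x y' := by
  rw [lor_comm, lor_add_left, lor_comm y, lor_comm y']

theorem lor_smul_right (c : R) (x y : Fin d → R) : lor x (c • y) = c * lor x y := by
  rw [lor_comm, lor_smul_left, lor_comm]

/-- the diagonal matrix of signs -/
def JJ (R : Type*) [CommRing R] (d : ℕ) : Matrix (Fin d) (Fin d) R := Matrix.diagonal eta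

theorem eta_sq (i : Fin d) : (eta i : R) * eta i = 1 := by
  unfold eta; split_ifs <;> simp

theorem JJ_sq : JJ R d * JJ R d = 1 := by
  rw [JJ, Matrix.diagonal_mul_diagonal]
  rw [← Matrix.diagonal_one]
  congr 1
  ext i
  exact eta_sq i

theorem lor_col (h g : Matrix (Fin d) (Fin d) R) (i j : Fin d) :
    lor (h.col i) (g.col j) = (hᵀ * JJ R d * g) i j := by
  rw [Matrix.mul_apply]
  unfold lor
  refine Finset.sum_congr rfl fun k _ => ?_
  rw [JJ, Matrix.mul_diagonal, Matrix.transpose_apply]
  simp only [Matrix.col_apply]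
  ring

theorem lor_single_right (x : Fin d → R) (j : Fin d) :
    lor x (Pi.single j 1) = eta j * x j := by
  classical
  unfold lor
  rw [Finset.sum_eq_single j]
  · simp
  · intro b _ hb
    simp [hb]
  · intro h; exact absurd (Finset.mem_univ j) h

theorem so_left {h : Matrix (Fin d) (Fin d) R} (hh : IsSO h) :
    hᵀ * JJ R d * h = JJ R d := by
  ext i j
  have e := hh.1 (Pi.single i 1) (Pi.single j 1)
  rw [lor_single_right, Matrix.mulVec_single_one, Matrix.mulVec_single_one, lor_col] at e
  rw [e, JJ, Matrix.diagonal_apply]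
  by_cases hij : i = j
  · subst hij; simp
  · rw [if_neg hij]; simp [Ne.symm hij]

theorem inv_left {h : Matrix (Fin d) (Fin d) R} (hh : hᵀ * JJ R d * h = JJ R d) :
    (JJ R d * hᵀ * JJ R d) * h = 1 := by
  rw [mul_assoc, mul_assoc, ← mul_assoc hᵀ, hh, JJ_sq]

theorem inv_right {h : Matrix (Fin d) (Fin d) R} (hh : hᵀ * JJ R d * h = JJ R d) :
    h * (JJ R d * hᵀ * JJ R d) = 1 :=
  mul_eq_one_comm.1 (inv_left hh)

end ring

/-- a matrix preserving the form which fixes the first `r+1` coordinate vectors is a rotation of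
the last two coordinates -/
theorem rot_core {K : Type*} [Field K] {r : ℕ} (k : Matrix (Fin (r + 3)) (Fin (r + 3)) K)
    (hk : kᵀ * JJ K (r + 3) * k = JJ K (r + 3)) (hdet : k.det = 1)
    (hfix : ∀ j : Fin (r + 3), (j : ℕ) < r + 1 → ∀ i, k i j = if i = j then 1 else 0) :
    k (ib r) (ib r) = k (ia r) (ia r) ∧ k (ia r) (ib r) = - k (ib r) (ia r) ∧
      k (ia r) (ia r) ^ 2 + k (ib r) (ia r) ^ 2 = 1 ∧
      ∀ i : Fin (r + 3), (i : ℕ) < r + 1 → k i (ia r) = 0 ∧ k i (ib r) = 0 := by
  have hab : ia r ≠ ib r := by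
    intro h; have := congrArg Fin.val h; simp [ia, ib] at this
  have h0 : ∀ i : Fin (r + 3), (i : ℕ) < r + 1 → ∀ j, k i j = if i = j then 1 else 0 := by
    intro i hi j
    have e := congrFun (congrFun hk i) j
    rw [← lor_col] at e
    have hcol : k.col i = Pi.single i 1 := by
      ext l
      rw [Matrix.col_apply, hfix i hi l, Pi.single_apply]
    rw [hcol, lor_comm, lor_single_right, JJ, Matrix.diagonal_apply, Matrix.col_apply] at e
    have he : (eta i : K) ≠ 0 := by
      unfold eta; split_ifs <;> simp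
    by_cases hij : i = j
    · rw [if_pos hij] at e ⊢
      have : (eta i : K) * k i j = eta i * 1 := by rw [e, mul_one]
      exact mul_left_cancel₀ he this
    · rw [if_neg hij] at e ⊢
      exact (mul_eq_zero.1 e).resolve_left he
  -- determinant
  have hd : k (ia r) (ia r) * k (ib r) (ib r) - k (ia r) (ib r) * k (ib r) (ia r) = 1 := by
    rw [← hdet, ← Matrix.det_submatrix_equiv_self (finSumFinEquiv (m := r + 1) (n := 2)) k]
    have hb : (k.submatrix (finSumFinEquiv (m := r + 1) (n := 2))
        (finSumFinEquiv (m := r + 1) (n := 2))) =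
        Matrix.fromBlocks 1 0 0 !![k (ia r) (ia r), k (ia r) (ib r);
          k (ib r) (ia r), k (ib r) (ib r)] := by
      have e0 : (Fin.natAdd (r + 1) (0 : Fin 2)) = (ia r : Fin (r + 3)) := by
        apply Fin.ext; simp [ia]
      have e1 : (Fin.natAdd (r + 1) (1 : Fin 2)) = (ib r : Fin (r + 3)) := by
        apply Fin.ext; simp [ib]
      ext (i | i) (j | j)
      · simp only [Matrix.submatrix_apply, finSumFinEquiv_apply_left, Matrix.fromBlocks_apply₁₁]
        rw [h0 _ (by have := i.2; simp; omega), Matrix.one_apply]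
        simp
      · simp only [Matrix.submatrix_apply, finSumFinEquiv_apply_left,
          finSumFinEquiv_apply_right, Matrix.fromBlocks_apply₁₂]
        rw [h0 _ (by have := i.2; simp; omega), if_neg]
        · simp
        · intro h; have := congrArg Fin.val h; simp at this; omega
      · simp only [Matrix.submatrix_apply, finSumFinEquiv_apply_left,
          finSumFinEquiv_apply_right, Matrix.fromBlocks_apply₂₁]
        rw [hfix _ (by have := j.2; simp; omega), if_neg]
        · simp
        · intro h; have := congrArg Fin.val h; simp at this; omega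
      · simp only [Matrix.submatrix_apply,
          finSumFinEquiv_apply_right, Matrix.fromBlocks_apply₂₂]
        fin_cases i <;> fin_cases j <;>
          simp only [Fin.zero_eta, Fin.mk_one, e0, e1] <;> simp
    rw [hb, Matrix.det_fromBlocks_zero₁₂, Matrix.det_one, one_mul, Matrix.det_fin_two]
    simp
  -- columns
  have hsum : ∀ i j : Fin (r + 3), (r + 1 ≤ (i : ℕ)) →
      lor (k.col i) (k.col j) = k (ia r) i * k (ia r) j + k (ib r) i * k (ib r) j := by
    intro i j hi
    unfold lor
    rw [← Finset.sum_subset (Finset.subset_univ {ia r, ib r})]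
    · rw [Finset.sum_pair hab]
      have e1 : (eta (ia r) : K) = 1 := by unfold eta; rw [if_neg]; simp [ia]
      have e2 : (eta (ib r) : K) = 1 := by unfold eta; rw [if_neg]; simp [ib]
      rw [e1, e2, one_mul, one_mul]
      rfl
    · intro l _ hl
      have hl2 : (l : ℕ) < r + 1 := by
        by_contra hcon
        apply hl
        have := l.2
        simp only [Finset.mem_insert, Finset.mem_singleton]
        rcases (by omega : (l : ℕ) = r + 1 ∨ (l : ℕ) = r + 2) with h | h
        · left; apply Fin.ext; simpa [ia] using h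
        · right; apply Fin.ext; simpa [ib] using h
      have : k.col i l = 0 := by
        rw [Matrix.col_apply, h0 l hl2, if_neg]
        intro h
        rw [h] at hl2
        omega
      rw [this]; ring
  have hJ : ∀ i j, lor (k.col i) (k.col j) = JJ K (r + 3) i j := by
    intro i j; rw [lor_col, hk]
  have haa : k (ia r) (ia r) ^ 2 + k (ib r) (ia r) ^ 2 = 1 := by
    have := hJ (ia r) (ia r)
    rw [hsum _ _ (by simp [ia]), JJ, Matrix.diagonal_apply_eq] at this
    have e1 : (eta (ia r) : K) = 1 := by unfold eta; rw [if_neg]; simp [ia]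
    rw [e1] at this
    linear_combination this
  have hab' : k (ia r) (ia r) * k (ia r) (ib r) + k (ib r) (ia r) * k (ib r) (ib r) = 0 := by
    have := hJ (ia r) (ib r)
    rw [hsum _ _ (by simp [ia]), JJ, Matrix.diagonal_apply_ne _ hab] at this
    exact this
  refine ⟨?_, ?_, haa, fun i hi => ⟨?_, ?_⟩⟩
  · -- delta = alpha
    linear_combination (- k (ib r) (ib r)) * haa + k (ia r) (ia r) * hd + k (ib r) (ia r) * hab'
  · linear_combination (- k (ia r) (ib r)) * haa + k (ia r) (ia r) * hab' - k (ib r) (ia r) * hd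
  · rw [h0 i hi, if_neg]
    intro h; rw [h] at hi; simp [ia] at hi
  · rw [h0 i hi, if_neg]
    intro h; rw [h] at hi; simp [ib] at hi

theorem conf_rot {K : Type} [Field K] [Algebra ℂ K] {r m : ℕ} (v : Fin m → Fin (r+3) → ℝ)
    (x : Fin (r+1) → Fin (r+1) → ℝ) (h : Matrix (Fin (r+3)) (Fin (r+3)) ℝ) (hh : IsSO h)
    (hx : (Matrix.of x).det ≠ 0)
    (g g' : Matrix (Fin (r+3)) (Fin (r+3)) K) (hg : IsSO g) (hg' : IsSO g')
    (hinc : ∀ i, g.mulVec (fun l => reHom K (h.mulVec (pad (x i)) l)) =
      g'.mulVec (fun l => reHom K (h.mulVec (pad (x i)) l))) :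
    zz h g g' * zz h g' g = 1 ∧ g.mulVec (epl h) = zz h g g' • g'.mulVec (epl h) ∧
      g.mulVec (emi h) = zz h g' g • g'.mulVec (emi h) := by
  set H : Matrix (Fin (r+3)) (Fin (r+3)) K := h.map (reHom K) with hH
  have hHJ : Hᵀ * JJ K (r + 3) * H = JJ K (r + 3) := by
    have e := congrArg (fun M : Matrix (Fin (r+3)) (Fin (r+3)) ℝ => M.map (reHom K)) (so_left hh)
    have eJ : (JJ ℝ (r + 3)).map (reHom K) = JJ K (r + 3) := by
      ext i j
      rw [Matrix.map_apply, JJ, JJ, Matrix.diagonal_apply, Matrix.diagonal_apply]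
      unfold eta
      split_ifs <;> simp
    simp only [Matrix.map_mul, eJ] at e
    exact e
  have hHdet : H.det = 1 := by
    rw [hH, ← RingHom.mapMatrix_apply, ← RingHom.map_det, hh.2, map_one]
  set P := g' * H with hP
  set Q := g * H with hQ
  have hPJ : Pᵀ * JJ K (r + 3) * P = JJ K (r + 3) := by
    rw [hP, Matrix.transpose_mul, ← mul_assoc, mul_assoc Hᵀ, mul_assoc Hᵀ, so_left hg', hHJ]
  have hQJ : Qᵀ * JJ K (r + 3) * Q = JJ K (r + 3) := by
    rw [hQ, Matrix.transpose_mul, ← mul_assoc, mul_assoc Hᵀ, mul_assoc Hᵀ, so_left hg, hHJ]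
  set k := (JJ K (r + 3) * Pᵀ * JJ K (r + 3)) * Q with hk
  have hPk : P * k = Q := by
    rw [hk, ← mul_assoc, inv_right hPJ, one_mul]
  have hkJ : kᵀ * JJ K (r + 3) * k = JJ K (r + 3) := by
    have e := hQJ
    rw [← hPk, Matrix.transpose_mul, ← mul_assoc, mul_assoc kᵀ, mul_assoc kᵀ, hPJ] at e
    exact e
  have hkdet : k.det = 1 := by
    have hPdet : P.det = 1 := by rw [hP, Matrix.det_mul, hg'.2, hHdet, one_mul]
    have hQdet : Q.det = 1 := by rw [hQ, Matrix.det_mul, hg.2, hHdet, one_mul]
    have e : P.det * k.det = Q.det := by rw [← Matrix.det_mul, hPk]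
    rw [hPdet, hQdet, one_mul] at e
    exact e
  -- k fixes the first coordinates
  have hfix1 : ∀ i, k.mulVec (fun l => reHom K (pad (x i) l)) = fun l => reHom K (pad (x i) l) := by
    intro i
    have e := hinc i
    have e2 : (fun l => reHom K (h.mulVec (pad (x i)) l)) =
        H.mulVec (fun l => reHom K (pad (x i) l)) := by
      ext l
      rw [hH]
      simp only [Matrix.mulVec, dotProduct, map_sum, map_mul, Matrix.map_apply]
    rw [e2, Matrix.mulVec_mulVec, Matrix.mulVec_mulVec, ← hQ, ← hP, ← hPk,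
      ← Matrix.mulVec_mulVec] at e
    have e3 := congrArg (fun z => (JJ K (r + 3) * Pᵀ * JJ K (r + 3)).mulVec z) e
    simp only [Matrix.mulVec_mulVec] at e3
    rw [← mul_assoc, inv_left hPJ, one_mul, Matrix.one_mulVec] at e3
    exact e3
  have hfix2 : ∀ j : Fin (r + 1), k.mulVec (Pi.single (Fin.castAdd 2 j) 1) =
      Pi.single (Fin.castAdd 2 j) 1 := by
    intro j
    have hxi : (Matrix.of x)⁻¹ * Matrix.of x = 1 :=
      Matrix.nonsing_inv_mul _ (isUnit_iff_ne_zero.2 hx)
    have e1 : (Pi.single (Fin.castAdd 2 j) 1 : Fin (r + 3) → K) =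
        ∑ i, reHom K ((Matrix.of x)⁻¹ j i) • (fun l => reHom K (pad (x i) l)) := by
      ext l
      rw [Finset.sum_apply]
      simp only [Pi.smul_apply, smul_eq_mul, ← map_mul, ← map_sum]
      by_cases hl : (l : ℕ) < r + 1
      · have e2 : ∀ i, (Matrix.of x)⁻¹ j i * pad (x i) l =
            (Matrix.of x)⁻¹ j i * (Matrix.of x) i ⟨l, hl⟩ := by
          intro i; rw [pad, dif_pos hl]; rfl
        simp_rw [e2]
        rw [← Matrix.mul_apply, hxi, Matrix.one_apply]
        by_cases hjl : j = ⟨l, hl⟩
        · rw [if_pos hjl, map_one]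
          subst hjl
          have : (Fin.castAdd 2 (⟨(l : ℕ), hl⟩ : Fin (r + 1))) = l := by
            apply Fin.ext; simp
          rw [this, Pi.single_eq_same]
        · rw [if_neg hjl, map_zero, Pi.single_eq_of_ne]
          intro h'
          apply hjl
          apply Fin.ext
          have := congrArg Fin.val h'
          simpa using this.symm
      · have e2 : ∀ i, (Matrix.of x)⁻¹ j i * pad (x i) l = 0 := by
          intro i; rw [pad, dif_neg hl, mul_zero]
        simp_rw [e2]
        rw [Finset.sum_const_zero, map_zero, Pi.single_eq_of_ne]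
        intro h'
        apply hl
        have := congrArg Fin.val h'
        have h3 := j.2
        simp at this
        omega
    rw [e1, ← Matrix.mulVecLin_apply, map_sum]
    refine Finset.sum_congr rfl fun i _ => ?_
    rw [map_smul, Matrix.mulVecLin_apply, hfix1]
  have hfix : ∀ j : Fin (r + 3), (j : ℕ) < r + 1 → ∀ i, k i j = if i = j then 1 else 0 := by
    intro j hj i
    have e := congrFun (hfix2 ⟨j, hj⟩) i
    have e2 : (Fin.castAdd 2 (⟨(j : ℕ), hj⟩ : Fin (r + 1))) = j := by
      apply Fin.ext; simp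
    rw [e2, Matrix.mulVec_single_one, Matrix.col_apply, Pi.single_apply] at e
    exact e
  obtain ⟨c1, c2, c3, c4⟩ := rot_core k hkJ hkdet hfix
  set al := k (ia r) (ia r) with hal
  set be := k (ib r) (ia r) with hbe
  set io : K := algebraMap ℂ K Complex.I with hio
  have hio2 : io * io = -1 := by
    rw [hio, ← map_mul, Complex.I_mul_I, map_neg, map_one]
  have hab : ia r ≠ ib r := by
    intro h; have := congrArg Fin.val h; simp [ia, ib] at this
  have hcolk : ∀ j : Fin (r + 3), (∀ i : Fin (r + 3), (i : ℕ) < r + 1 → k i j = 0) →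
      k.col j = k (ia r) j • (Pi.single (ia r) 1 : Fin (r + 3) → K) +
        k (ib r) j • (Pi.single (ib r) 1 : Fin (r + 3) → K) := by
    intro j hj
    ext l
    rw [Matrix.col_apply, Pi.add_apply, Pi.smul_apply, Pi.smul_apply, Pi.single_apply,
      Pi.single_apply]
    by_cases hl2 : (l : ℕ) < r + 1
    · rw [hj l hl2, if_neg, if_neg]
      · simp
      · intro h; rw [h] at hl2; simp [ib] at hl2
      · intro h; rw [h] at hl2; simp [ia] at hl2
    · have := l.2
      rcases (by omega : (l : ℕ) = r + 1 ∨ (l : ℕ) = r + 2) with h | h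
      · have e : l = ia r := by apply Fin.ext; simpa [ia] using h
        rw [e, if_pos rfl, if_neg hab]; simp
      · have e : l = ib r := by apply Fin.ext; simpa [ib] using h
        rw [e, if_pos rfl, if_neg hab.symm]; simp
  have hQcol : ∀ j, Q.col j = P.mulVec (k.col j) := by
    intro j
    rw [← Matrix.mulVec_single_one Q, ← hPk, ← Matrix.mulVec_mulVec, Matrix.mulVec_single_one]
  have hQa : Q.col (ia r) = al • P.col (ia r) + be • P.col (ib r) := by
    rw [hQcol, hcolk _ (fun i hi => (c4 i hi).1), Matrix.mulVec_add, Matrix.mulVec_smul,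
      Matrix.mulVec_smul, Matrix.mulVec_single_one, Matrix.mulVec_single_one]
  have hQb : Q.col (ib r) = (-be) • P.col (ia r) + al • P.col (ib r) := by
    rw [hQcol, hcolk _ (fun i hi => (c4 i hi).2), Matrix.mulVec_add, Matrix.mulVec_smul,
      Matrix.mulVec_smul, Matrix.mulVec_single_one, Matrix.mulVec_single_one, c1, c2]
  have hepl : ∀ G : Matrix (Fin (r+3)) (Fin (r+3)) K, G.mulVec (epl h) =
      (G * H).col (ia r) + io • (G * H).col (ib r) := by
    intro G
    have e : (epl h : Fin (r + 3) → K) = H.col (ia r) + io • H.col (ib r) := by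
      ext l
      simp only [epl, Pi.add_apply, Pi.smul_apply, smul_eq_mul, Matrix.col_apply, hH,
        Matrix.map_apply, reHom, RingHom.comp_apply, hio, map_add, map_mul]
      rfl
    rw [e, Matrix.mulVec_add, Matrix.mulVec_smul, ← Matrix.mulVec_single_one (G * H),
      ← Matrix.mulVec_single_one (G * H), ← Matrix.mulVec_mulVec, ← Matrix.mulVec_mulVec,
      Matrix.mulVec_single_one, Matrix.mulVec_single_one]
  have hemi : ∀ G : Matrix (Fin (r+3)) (Fin (r+3)) K, G.mulVec (emi h) =
      (G * H).col (ia r) + (-io) • (G * H).col (ib r) := by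
    intro G
    have e : (emi h : Fin (r + 3) → K) = H.col (ia r) + (-io) • H.col (ib r) := by
      ext l
      simp only [emi, Pi.add_apply, Pi.smul_apply, smul_eq_mul, Matrix.col_apply, hH,
        Matrix.map_apply, reHom, RingHom.comp_apply, hio, map_sub, map_mul]
      change _ = _ + (-(algebraMap ℂ K) Complex.I) * (algebraMap ℂ K) (h l (ib r) : ℂ)
      rw [neg_mul, ← sub_eq_add_neg]
      rfl
    rw [e, Matrix.mulVec_add, Matrix.mulVec_smul, ← Matrix.mulVec_single_one (G * H),
      ← Matrix.mulVec_single_one (G * H), ← Matrix.mulVec_mulVec, ← Matrix.mulVec_mulVec,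
      Matrix.mulVec_single_one, Matrix.mulVec_single_one]
  have hepl' : g.mulVec (epl h) = (al - io * be) • g'.mulVec (epl h) := by
    rw [hepl, hepl, ← hQ, ← hP, hQa, hQb]
    ext l
    simp only [Pi.add_apply, Pi.smul_apply, smul_eq_mul]
    linear_combination (be * P.col (ib r) l) * hio2
  have hemi' : g.mulVec (emi h) = (al + io * be) • g'.mulVec (emi h) := by
    rw [hemi, hemi, ← hQ, ← hP, hQa, hQb]
    ext l
    simp only [Pi.add_apply, Pi.smul_apply, smul_eq_mul]
    linear_combination (be * P.col (ib r) l) * hio2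
  have hJa : JJ K (r + 3) (ia r) (ia r) = 1 := by
    rw [JJ, Matrix.diagonal_apply_eq]; unfold eta; rw [if_neg]; simp [ia]
  have hJb : JJ K (r + 3) (ib r) (ib r) = 1 := by
    rw [JJ, Matrix.diagonal_apply_eq]; unfold eta; rw [if_neg]; simp [ib]
  have hJab : JJ K (r + 3) (ia r) (ib r) = 0 := by
    rw [JJ, Matrix.diagonal_apply_ne _ hab]
  have hJba : JJ K (r + 3) (ib r) (ia r) = 0 := by
    rw [JJ, Matrix.diagonal_apply_ne _ hab.symm]
  have hlor : lor (g'.mulVec (epl h)) (g'.mulVec (emi h)) = (2 : K) := by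
    rw [hepl, hemi, ← hP]
    simp only [lor_add_left, lor_add_right, lor_smul_left, lor_smul_right, lor_col, hPJ, hJa, hJb,
      hJab, hJba]
    linear_combination (-1 : K) * hio2
  have h2 : algebraMap ℂ K (1 / 2) * 2 = 1 := by
    have : (2 : K) = algebraMap ℂ K 2 := by rw [map_ofNat]
    rw [this, ← map_mul]; norm_num
  have z1 : zz h g g' = al - io * be := by
    rw [zz, hepl', lor_smul_left, hlor]
    linear_combination (al - io * be) * h2
  have z2 : zz h g' g = al + io * be := by
    rw [zz, hemi', lor_smul_right, hlor]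
    linear_combination (al + io * be) * h2
  refine ⟨?_, ?_, ?_⟩
  · rw [z1, z2]
    linear_combination c3 - be ^ 2 * hio2
  · rw [z1, hepl']
  · rw [z2, hemi']

end Pool.Agent.W365.ConfRot
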