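import Pool.Agent.W576.Defs2

/-!
# Determinant of the residue block of a lattice isometry
-/

namespace Pool.Agent.W365.BlockDet

open Pool.Agent.W576 Matrix

variable {K : Type} [Field K] [Algebra ℂ K] {κ : Type} [Field κ]

theorem red_t (p : Place K κ) (x : p.O) (h : p.t⁻¹ * (x : K) ∈ p.O) : p.red x = 0 :=
  (p.red_ker x).2 h

omit [Algebra ℂ K] in
theorem mulVec_single' {n : Type} [Fintype n] [DecidableEq n] (γ : Matrix n n K) (j : n) (c : K)
    (i : n) : γ.mulVec (Pi.single j c) i = γ i j * c := by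
  rw [Matrix.mulVec_single]
  simp

theorem two_ne (p : Place K κ) : (2 : κ) ≠ 0 := by
  have h : p.rho (2 : ℝ) = 2 := map_ofNat p.rho 2
  rw [← h]
  exact (map_ne_zero p.rho).2 two_ne_zero

theorem block_det (p : Place K κ) {r : ℕ}
    (γ : Matrix (SI r) (SI r) K) (hiso : ∀ x y, sform (γ.mulVec x) (γ.mulVec y) = sform x y)
    (hdet : γ.det = 1) (h0 : ∀ x, p.L 0 x → p.L 0 (γ.mulVec x))
    (h1 : ∀ x, p.L 1 x → p.L 1 (γ.mulVec x))
    (x : Fin (r+1) → Fin (r+1) → ℝ) (y : Fin (r+1) → Fin (r+1) → p.O)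
    (hy : ∀ i j, (y i j : K) = γ.mulVec (emb (x i)) (.inl (.inl j))) :
    (Matrix.of (fun i j => p.red (y i j))).det = p.rho (Matrix.of x).det := by
  classical
  have hL0 : ∀ z : SI r → K, p.L 0 z ↔ ∀ i, z i ∈ p.O := by
    intro z
    simp only [Place.L, zpow_zero, one_mul, neg_zero]
    constructor
    · rintro ⟨a, b, c⟩ ((i | i) | i)
      · exact a i
      · exact b
      · exact c
    · intro h
      exact ⟨fun i => h _, h _, h _⟩
  have hL1 : ∀ z : SI r → K, p.L 1 z ↔ (∀ i, z (.inl (.inl i)) ∈ p.O) ∧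
      p.t * z (.inl (.inr ())) ∈ p.O ∧ p.t⁻¹ * z (.inr ()) ∈ p.O := by
    intro z
    simp only [Place.L, zpow_one, _root_.zpow_neg]
  have one_mem : (1 : K) ∈ p.O := p.O.one_mem
  -- all entries in O
  have hO : ∀ i j, γ i j ∈ p.O := by
    intro i j
    have h := (hL0 _).1 (h0 (Pi.single j 1) ((hL0 _).2 ?_)) i
    · rwa [mulVec_single', mul_one] at h
    · intro k
      by_cases hk : k = j
      · subst hk; simp [one_mem]
      · simp [hk, p.O.zero_mem]
  have hcol : ∀ j : Fin (r+1), p.t⁻¹ * γ (.inr ()) (.inl (.inl j)) ∈ p.O := by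
    intro j
    have h := ((hL1 _).1 (h1 (Pi.single (.inl (.inl j)) 1) ((hL1 _).2 ⟨?_, ?_, ?_⟩))).2.2
    · rwa [mulVec_single', mul_one] at h
    · intro k
      by_cases hk : k = j
      · subst hk; simp [one_mem]
      · have : (Sum.inl (Sum.inl k) : SI r) ≠ .inl (.inl j) := by simpa using hk
        simp [this, p.O.zero_mem]
    · simp [p.O.zero_mem]
    · simp [p.O.zero_mem]
  have hplus : (∀ i : Fin (r+1), p.t⁻¹ * γ (.inl (.inl i)) (.inl (.inr ())) ∈ p.O) ∧
      p.t⁻¹ * γ (.inr ()) (.inl (.inr ())) ∈ p.O := by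
    have h := (hL1 _).1 (h1 (Pi.single (.inl (.inr ())) p.t⁻¹) ((hL1 _).2 ⟨?_, ?_, ?_⟩))
    · refine ⟨fun i => ?_, ?_⟩
      · have h2 := h.1 i
        rw [mulVec_single'] at h2
        rwa [mul_comm]
      · have h2 := h.2.2
        rw [mulVec_single'] at h2
        have h3 := p.O.mul_mem p.t_mem h2
        have e : p.t * (p.t⁻¹ * (γ (Sum.inr ()) (Sum.inl (Sum.inr ())) * p.t⁻¹)) =
            p.t⁻¹ * γ (Sum.inr ()) (Sum.inl (Sum.inr ())) := by
          have := p.t_ne
          field_simp
        rwa [e] at h3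
    · intro k
      simp [p.O.zero_mem]
    · simp [p.t_ne, one_mem]
    · simp [p.O.zero_mem]
  -- the reduced matrix
  set γO : Matrix (SI r) (SI r) p.O := fun i j => ⟨γ i j, hO i j⟩ with hγO
  set R : Matrix (SI r) (SI r) κ := γO.map p.red with hR
  have hγdet : γO.det = 1 := by
    have h2 : (γO.map p.O.subtype).det = 1 := by
      have : γO.map p.O.subtype = γ := by ext i j; rfl
      rw [this, hdet]
    have h3 : p.O.subtype γO.det = 1 := by
      rw [RingHom.map_det]; exact h2
    exact Subtype.ext h3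
  have hRdet : R.det = 1 := by
    have : p.red γO.det = R.det := by rw [RingHom.map_det]; rfl
    rw [← this, hγdet, map_one]
  set A : Matrix (Fin (r+1)) (Fin (r+1)) κ := fun i j => R (.inl (.inl i)) (.inl (.inl j)) with hA
  set lam : κ := R (.inl (.inr ())) (.inl (.inr ())) with hlam
  set mu : κ := R (.inr ()) (.inr ()) with hmu
  have z1 : ∀ j, R (.inr ()) (.inl (.inl j)) = 0 := fun j => red_t p _ (hcol j)
  have z2 : ∀ i, R (.inl (.inl i)) (.inl (.inr ())) = 0 := fun i => red_t p _ (hplus.1 i)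
  have z3 : R (.inr ()) (.inl (.inr ())) = 0 := red_t p _ hplus.2
  have hblock : R.det = A.det * lam * mu := by
    have e1 : R = Matrix.fromBlocks R.toBlocks₁₁ R.toBlocks₁₂ 0 R.toBlocks₂₂ := by
      conv_lhs => rw [← Matrix.fromBlocks_toBlocks R]
      congr 1
      ext ⟨⟩ (j | ⟨⟩)
      · exact z1 j
      · exact z3
    have e2 : R.toBlocks₁₁ = Matrix.fromBlocks A 0 (R.toBlocks₁₁).toBlocks₂₁
        (R.toBlocks₁₁).toBlocks₂₂ := by
      conv_lhs => rw [← Matrix.fromBlocks_toBlocks R.toBlocks₁₁]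
      congr 1
      ext i ⟨⟩
      exact z2 i
    rw [e1, Matrix.det_fromBlocks_zero₂₁, e2, Matrix.det_fromBlocks_zero₁₂]
    rw [Matrix.det_unique (R.toBlocks₁₁.toBlocks₂₂), Matrix.det_unique R.toBlocks₂₂]
    rfl
  have hform : lam * mu = 1 := by
    have h := hiso (Pi.single (.inl (.inr ())) 1) (Pi.single (.inr ()) 1)
    have hK : (∑ i : Fin (r + 1), eta i * (γ (.inl (.inl i)) (.inl (.inr ())) *
        γ (.inl (.inl i)) (.inr ()))) +
        2 * (γ (.inl (.inr ())) (.inl (.inr ())) * γ (.inr ()) (.inr ()) +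
          γ (.inr ()) (.inl (.inr ())) * γ (.inl (.inr ())) (.inr ())) = 2 := by
      have e : sform (Pi.single (.inl (.inr ())) 1 : SI r → K) (Pi.single (.inr ()) 1) = 2 := by
        simp [sform]
      rw [e] at h
      simp only [sform, mulVec_single', mul_one] at h
      exact h
    have hO2 : (∑ i : Fin (r + 1), eta i * (γO (.inl (.inl i)) (.inl (.inr ())) *
        γO (.inl (.inl i)) (.inr ()))) +
        2 * (γO (.inl (.inr ())) (.inl (.inr ())) * γO (.inr ()) (.inr ()) +
          γO (.inr ()) (.inl (.inr ())) * γO (.inl (.inr ())) (.inr ())) = 2 := by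
      apply p.O.subtype_injective
      have : ∀ i : Fin (r+1), p.O.subtype (eta i : p.O) = eta i := by
        intro i
        unfold eta
        split_ifs <;> simp
      simp only [map_add, map_sum, map_mul, map_ofNat, this]
      exact hK
    have hR2 := congrArg p.red hO2
    simp only [map_add, map_sum, map_mul, map_ofNat] at hR2
    have r1 : ∀ i j, p.red (γO i j) = R i j := fun i j => rfl
    simp only [r1, z2, z3, zero_mul, mul_zero, Finset.sum_const_zero, zero_add, add_zero] at hR2
    have := two_ne p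
    exact mul_left_cancel₀ this (by rw [hR2, mul_one])
  have hAdet : A.det = 1 := by
    rw [← hRdet, hblock, mul_assoc, hform, mul_one]
  -- final identity
  have hfin : (Matrix.of (fun i j => p.red (y i j))) = (Matrix.of x).map p.rho * A.transpose := by
    ext i j
    rw [Matrix.of_apply, Matrix.mul_apply]
    have hyO : y i j = ∑ k : Fin (r+1), γO (.inl (.inl j)) (.inl (.inl k)) *
        (((algebraMap ℂ K).codRestrict p.O p.alg) (x i k : ℂ)) := by
      apply Subtype.ext
      rw [hy]
      simp only [Matrix.mulVec, dotProduct, Fintype.sum_sum_type, emb, Sum.elim_inl, Sum.elim_inr]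
      simp [hγO]
    rw [hyO, map_sum]
    refine Finset.sum_congr rfl fun k _ => ?_
    rw [map_mul, mul_comm]
    rfl
  rw [hfin, Matrix.det_mul, Matrix.det_transpose, hAdet, mul_one, ← RingHom.mapMatrix_apply,
    ← RingHom.map_det]

end Pool.Agent.W365.BlockDet
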